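import Mathlib

set_option autoImplicit false

namespace Pool.Agent.H559Z.Mix

/-- The law `μ^{(a)}_n` of `X_n`, where `X_0 = 0`, `X_{n+1} = a X_n + b_n` and the `b_n` are
independent of law `μ`.  Finitely supported measures on `ℤ` are finitely supported functions. -/
noncomputable def law (μ : ℤ →₀ ℝ) (a : ℤ) : ℕ → (ℤ →₀ ℝ)
  | 0 => Finsupp.single 0 1
  | n + 1 => (law μ a n).sum fun x p => μ.sum fun b w => Finsupp.single (a * x + b) (p * w)

/-- Shannon entropy `H(ν) = ∑_x ν(x) log (1/ν(x))`. -/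
noncomputable def entropy (ν : ℤ →₀ ℝ) : ℝ := ν.sum fun _ p => p * Real.log p⁻¹

/-- The total variation distance between `ν mod q` and the uniform measure on `ℤ/qℤ`. -/
noncomputable def tvUnif (ν : ℤ →₀ ℝ) (q : ℕ) [NeZero q] : ℝ :=
  (1 / 2) * ∑ y : ZMod q, |(ν.mapDomain (fun x : ℤ => (x : ZMod q))) y - 1 / q|

end Pool.Agent.H559Z.Mix
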