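import Pool.Agent.H559Z.Mix.Defs

set_option autoImplicit false
open Complex Finset
open scoped Real

namespace Pool.Agent.H559Z.Mix

noncomputable def mu0 : ℤ →₀ ℝ := Finsupp.single 0 (3 / 4) + Finsupp.single 1 (1 / 4)

theorem mu0_apply (x : ℤ) : mu0 x = if x = 0 then 3 / 4 else if x = 1 then 1 / 4 else 0 := by
  simp only [mu0, Finsupp.add_apply, Finsupp.single_apply]
  by_cases h0 : x = 0
  · subst h0; simp
  · by_cases h1 : x = 1
    · subst h1; simp
    · simp [h0, h1, Ne.symm h0, Ne.symm h1]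

theorem mu0_support : mu0.support = {0, 1} := by
  ext x
  simp only [Finsupp.mem_support_iff, mu0_apply, Finset.mem_insert, Finset.mem_singleton]
  by_cases h0 : x = 0
  · simp [h0]
  · by_cases h1 : x = 1
    · simp [h1]
    · simp [h0, h1]

theorem mu0_sum {M : Type*} [AddCommMonoid M] (F : ℤ → ℝ → M) :
    mu0.sum F = F 0 (3 / 4) + F 1 (1 / 4) := by
  rw [Finsupp.sum, mu0_support, Finset.sum_pair (by norm_num)]
  simp [mu0_apply]

theorem lc_succ {M : Type*} [AddCommGroup M] [Module ℝ M] (μ : ℤ →₀ ℝ) (a : ℤ) (n : ℕ)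
    (f : ℤ → M) :
    Finsupp.linearCombination ℝ f (law μ a (n + 1)) =
      Finsupp.linearCombination ℝ
        (fun x => Finsupp.linearCombination ℝ (fun b => f (a * x + b)) μ) (law μ a n) := by
  rw [law, map_finsuppSum, Finsupp.linearCombination_apply ℝ (law μ a n)]
  refine Finsupp.sum_congr fun x _ => ?_
  rw [map_finsuppSum, Finsupp.linearCombination_apply, Finsupp.smul_sum]
  refine Finsupp.sum_congr fun b _ => ?_
  rw [Finsupp.linearCombination_single, mul_smul]

theorem lc_mu0 {M : Type*} [AddCommGroup M] [Module ℝ M] (f : ℤ → M) :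
    Finsupp.linearCombination ℝ f mu0 = (3 / 4 : ℝ) • f 0 + (1 / 4 : ℝ) • f 1 := by
  rw [Finsupp.linearCombination_apply, mu0_sum]

theorem mass (a : ℤ) (n : ℕ) :
    Finsupp.linearCombination ℝ (fun _ => (1 : ℝ)) (law mu0 a n) = 1 := by
  induction n with
  | zero => simp [law]
  | succ n ih =>
    rw [lc_succ]
    simp only [lc_mu0]
    norm_num
    exact ih

/-- entropy of a sum of point masses at distinct points -/
theorem entropy_sum_single {ι : Type*} (s : Finset ι) (g : ι → ℤ) (w : ι → ℝ)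
    (hg : Set.InjOn g s) :
    entropy (∑ i ∈ s, Finsupp.single (g i) (w i)) = ∑ i ∈ s, w i * Real.log (w i)⁻¹ := by
  classical
  have hsupp : (∑ i ∈ s, Finsupp.single (g i) (w i)).support ⊆ s.image g := by
    intro y hy
    obtain ⟨i, hi, hyi⟩ := Finset.mem_biUnion.1 (Finsupp.support_finsetSum hy)
    have := Finsupp.support_single_subset hyi
    rw [Finset.mem_singleton] at this
    exact Finset.mem_image.2 ⟨i, hi, this.symm⟩
  rw [entropy, Finsupp.sum_of_support_subset _ hsupp _ (by simp), Finset.sum_image hg]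
  refine Finset.sum_congr rfl fun i hi => ?_
  have : (∑ j ∈ s, Finsupp.single (g j) (w j)) (g i) = w i := by
    rw [Finsupp.finsetSum_apply, Finset.sum_eq_single i]
    · simp
    · intro j hj hji
      rw [Finsupp.single_apply, if_neg]
      exact fun h => hji (hg hj hi h)
    · exact fun h => absurd hi h
  rw [this]

noncomputable def h0 : ℝ := (3 / 4) * Real.log (4 / 3) + (1 / 4) * Real.log 4

theorem h0_pos : 0 < h0 := by
  have h1 : 0 < Real.log (4 / 3) := Real.log_pos (by norm_num)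
  have h2 : 0 < Real.log 4 := Real.log_pos (by norm_num)
  unfold h0; positivity

theorem entropy_succ (a : ℤ) (ha : 2 ≤ a) (n : ℕ) :
    entropy (law mu0 a (n + 1)) = entropy (law mu0 a n) + h0 := by
  classical
  set ν := law mu0 a n with hν
  have h1 : law mu0 a (n + 1) = ∑ i ∈ ν.support ×ˢ ({0, 1} : Finset ℤ),
      Finsupp.single (a * i.1 + i.2) (ν i.1 * mu0 i.2) := by
    rw [law, Finset.sum_product, ← hν, Finsupp.sum]
    refine Finset.sum_congr rfl fun x _ => ?_
    rw [Finsupp.sum, mu0_support]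
  have hinj : Set.InjOn (fun i : ℤ × ℤ => a * i.1 + i.2)
      (↑(ν.support ×ˢ ({0, 1} : Finset ℤ)) : Set (ℤ × ℤ)) := by
    rintro ⟨x, b⟩ hx ⟨y, c⟩ hy hxy
    simp only [Finset.coe_product, Set.mem_prod, Finset.mem_coe, Finset.mem_insert,
      Finset.mem_singleton] at hx hy hxy
    have hxy' : x = y := by
      rcases lt_trichotomy x y with h | h | h
      · have : a * (x + 1) ≤ a * y := by
          apply mul_le_mul_of_nonneg_left <;> omega
        rcases hx.2 with hb | hb <;> rcases hy.2 with hc | hc <;> nlinarith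
      · exact h
      · have : a * (y + 1) ≤ a * x := by
          apply mul_le_mul_of_nonneg_left <;> omega
        rcases hx.2 with hb | hb <;> rcases hy.2 with hc | hc <;> nlinarith
    subst hxy'
    have : b = c := by linarith
    rw [this]
  rw [h1, entropy_sum_single _ _ _ hinj, Finset.sum_product]
  have hm := mass a n
  rw [Finsupp.linearCombination_apply, ← hν, Finsupp.sum] at hm
  simp only [smul_eq_mul, mul_one] at hm
  have : ∀ x ∈ ν.support, ∑ b ∈ ({0, 1} : Finset ℤ), ν x * mu0 b * Real.log (ν x * mu0 b)⁻¹ =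
      ν x * Real.log (ν x)⁻¹ + ν x * h0 := by
    intro x hx
    have hx0 : ν x ≠ 0 := Finsupp.mem_support_iff.1 hx
    rw [Finset.sum_pair (by norm_num)]
    simp only [mu0_apply, if_true, one_ne_zero, if_false, mul_inv]
    rw [Real.log_mul (inv_ne_zero hx0) (by norm_num), Real.log_mul (inv_ne_zero hx0) (by norm_num)]
    unfold h0
    norm_num
    ring
  rw [Finset.sum_congr rfl this, Finset.sum_add_distrib, ← Finset.sum_mul, hm, one_mul]
  rfl

theorem entropy_law (a : ℤ) (ha : 2 ≤ a) (n : ℕ) : entropy (law mu0 a n) = n * h0 := by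
  induction n with
  | zero => simp [law, entropy]
  | succ n ih => rw [entropy_succ a ha, ih]; push_cast; ring

noncomputable def e (t : ℝ) : ℂ := exp (I * (2 * π * t : ℝ))

theorem e_add (s t : ℝ) : e (s + t) = e s * e t := by
  rw [e, e, e, ← Complex.exp_add]; congr 1; push_cast; ring

theorem e_norm (t : ℝ) : ‖e t‖ = 1 := by
  rw [e, mul_comm]; exact Complex.norm_exp_ofReal_mul_I _

theorem e_int (k : ℤ) : e k = 1 := by
  rw [e, ← Complex.exp_int_mul_two_pi_mul_I k]; congr 1; push_cast; ring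

theorem e_sub_one (t : ℝ) (ht : 0 ≤ t) : ‖e t - 1‖ ≤ 2 * π * t := by
  refine (Real.norm_exp_I_mul_ofReal_sub_one_le).trans ?_
  rw [Real.norm_eq_abs, abs_of_nonneg (by positivity)]

noncomputable def F (a : ℤ) (n : ℕ) (θ : ℝ) : ℂ :=
  Finsupp.linearCombination ℝ (fun x : ℤ => e (θ * x)) (law mu0 a n)

theorem F_succ (a : ℤ) (n : ℕ) (θ : ℝ) :
    F a (n + 1) θ = F a n (θ * a) * (3 / 4 + 1 / 4 * e θ) := by
  rw [F, lc_succ, F, Finsupp.linearCombination_apply, Finsupp.linearCombination_apply,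
    Finsupp.sum_mul]
  refine Finsupp.sum_congr fun x _ => ?_
  rw [lc_mu0]
  simp only [real_smul]
  push_cast
  rw [mul_add θ, mul_add θ, e_add, e_add, mul_zero, mul_one, ← mul_assoc θ]
  have : e 0 = 1 := by simp [e]
  rw [this]; ring

theorem step_lower (θ : ℝ) : Real.exp (-(‖e θ - 1‖ / 2)) ≤ ‖(3 / 4 + 1 / 4 * e θ : ℂ)‖ := by
  set u := ‖e θ - 1‖ with hu
  have hu0 : 0 ≤ u := norm_nonneg _
  have hu2 : u ≤ 2 := by
    have := norm_sub_le (e θ) 1
    rw [e_norm, norm_one] at this; linarith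
  have h1 : 1 - u / 4 ≤ ‖(3 / 4 + 1 / 4 * e θ : ℂ)‖ := by
    have h2 : (3 / 4 + 1 / 4 * e θ : ℂ) = 1 - (-(1 / 4) * (e θ - 1)) := by ring
    have h3 := norm_sub_norm_le (1 : ℂ) (-(1 / 4) * (e θ - 1))
    rw [norm_mul, norm_one, ← hu] at h3
    rw [h2]
    norm_num at h3 ⊢
    linarith
  refine le_trans ?_ h1
  have h4 := Real.add_one_le_exp (u / 2)
  rw [Real.exp_neg, inv_le_comm₀ (Real.exp_pos _) (by linarith)]
  refine le_trans ?_ h4
  rw [inv_le_iff_one_le_mul₀ (by linarith)]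
  nlinarith

theorem F_lower (a : ℤ) (n : ℕ) (θ : ℝ) :
    Real.exp (-((∑ j ∈ range n, ‖e (θ * a ^ j) - 1‖) / 2)) ≤ ‖F a n θ‖ := by
  induction n generalizing θ with
  | zero => simp [F, law, e]
  | succ n ih =>
    rw [F_succ, norm_mul, Finset.sum_range_succ']
    have h1 := ih (θ * a)
    have h2 := step_lower θ
    have h3 : -((∑ j ∈ range n, ‖e (θ * a ^ (j + 1)) - 1‖ + ‖e (θ * a ^ 0) - 1‖) / 2) =
        -((∑ j ∈ range n, ‖e (θ * a * a ^ j) - 1‖) / 2) + -(‖e θ - 1‖ / 2) := by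
      simp only [pow_succ', mul_assoc, pow_zero, mul_one]; ring
    rw [h3, Real.exp_add]
    exact mul_le_mul h1 h2 (Real.exp_pos _).le (norm_nonneg _)

/-- over `C` full periods the defects add up to at most `6πC` -/
theorem sum_defect (a : ℤ) (ha : 2 ≤ a) (m r : ℕ) (hr : 0 < r) (hdvd : (r : ℤ) ∣ a ^ m - 1)
    (hle : a ^ m ≤ 3 * r) (C : ℕ) :
    ∑ j ∈ range (C * m), ‖e ((1 / r : ℝ) * a ^ j) - 1‖ ≤ 6 * π * C := by
  have hr' : (0 : ℝ) < r := by exact_mod_cast hr
  have ha' : (2 : ℝ) ≤ a := by exact_mod_cast ha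
  have hper : ∀ c j : ℕ, e ((1 / r : ℝ) * a ^ (c * m + j)) = e ((1 / r : ℝ) * a ^ j) := by
    intro c j
    have h1 : (r : ℤ) ∣ (a ^ m) ^ c - 1 := by
      have := sub_dvd_pow_sub_pow (a ^ m) 1 c
      rw [one_pow] at this
      exact hdvd.trans this
    obtain ⟨k, hk⟩ := h1
    have hk' : ((a : ℝ) ^ m) ^ c = 1 + r * k := by
      have : ((a ^ m) ^ c : ℤ) = 1 + r * k := by linarith
      exact_mod_cast this
    have : (1 / r : ℝ) * a ^ (c * m + j) = (1 / r : ℝ) * a ^ j + ((k * a ^ j : ℤ) : ℝ) := by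
      rw [pow_add, mul_comm c m, pow_mul, hk']; push_cast; field_simp
    rw [this, e_add, e_int, mul_one]
  have hone : ∑ j ∈ range m, ‖e ((1 / r : ℝ) * a ^ j) - 1‖ ≤ 6 * π := by
    have h1 : ∑ j ∈ range m, ‖e ((1 / r : ℝ) * a ^ j) - 1‖ ≤
        ∑ j ∈ range m, 2 * π * ((1 / r : ℝ) * a ^ j) :=
      Finset.sum_le_sum fun j _ => e_sub_one _ (by positivity)
    rw [← Finset.mul_sum, ← Finset.mul_sum] at h1
    have h2 : ∀ n : ℕ, ∑ j ∈ range n, (a : ℝ) ^ j ≤ a ^ n := by
      intro n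
      induction n with
      | zero => simp
      | succ n ih =>
        rw [Finset.sum_range_succ, pow_succ]
        have : (0 : ℝ) < a ^ n := by positivity
        nlinarith
    have h3 : (a : ℝ) ^ m ≤ 3 * r := by exact_mod_cast hle
    have h4 : (1 / r : ℝ) * ∑ j ∈ range m, (a : ℝ) ^ j ≤ 3 := by
      rw [one_div, inv_mul_le_iff₀ hr']
      linarith [h2 m]
    have := Real.pi_pos
    nlinarith
  induction C with
  | zero => simp
  | succ C ih =>
    rw [Nat.succ_mul, Finset.sum_range_add]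
    simp only [hper]
    push_cast
    linarith

/-- the total variation distance dominates a nontrivial Fourier coefficient -/
theorem tv_lower (ν : ℤ →₀ ℝ) (q : ℕ) [NeZero q] (r s : ℕ) (hq : q = r * s) (hr : 2 ≤ r) :
    ‖Finsupp.linearCombination ℝ (fun x : ℤ => e ((1 / r : ℝ) * x)) ν‖ ≤ 2 * tvUnif ν q := by
  classical
  have hq0 : q ≠ 0 := NeZero.ne q
  have hs0 : s ≠ 0 := by rintro rfl; simp at hq; exact hq0 hq
  have hr0 : (r : ℂ) ≠ 0 := by exact_mod_cast (by omega : r ≠ 0)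
  have hs0' : (s : ℂ) ≠ 0 := by exact_mod_cast hs0
  set ψ : ZMod q → ℂ := fun y => ZMod.stdAddChar (y * (s : ZMod q)) with hψ
  have hψx : ∀ x : ℤ, ψ (x : ZMod q) = e ((1 / r : ℝ) * x) := by
    intro x
    have : ((x : ZMod q) * (s : ZMod q)) = ((x * s : ℤ) : ZMod q) := by push_cast; rfl
    simp only [hψ, this, ZMod.stdAddChar_coe, e]
    congr 1
    rw [hq]; push_cast; field_simp
  have hsum : ∑ y : ZMod q, ψ y = 0 := by
    have := AddChar.sum_mulShift (s : ZMod q) (ZMod.isPrimitive_stdAddChar q)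
    rw [if_neg] at this
    · simpa using this
    · rw [ZMod.natCast_eq_zero_iff]
      intro h
      have := Nat.le_of_dvd (Nat.pos_of_ne_zero hs0) h
      rw [hq] at this
      have : 0 < s := Nat.pos_of_ne_zero hs0
      nlinarith
  have hn : ∀ y, ‖ψ y‖ = 1 := by
    intro y
    simp only [hψ, ZMod.stdAddChar_apply]
    exact Circle.norm_coe _
  have h1 : Finsupp.linearCombination ℝ (fun x : ℤ => e ((1 / r : ℝ) * x)) ν =
      ∑ y : ZMod q, ((ν.mapDomain (fun x : ℤ => (x : ZMod q))) y - 1 / q) • ψ y := by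
    simp only [sub_smul]
    rw [Finset.sum_sub_distrib, ← Finset.smul_sum, hsum, smul_zero, sub_zero]
    have h2 := Finsupp.linearCombination_mapDomain ℝ (fun x : ℤ => (x : ZMod q)) ν (v' := ψ)
    rw [Finsupp.linearCombination_apply ℝ (Finsupp.mapDomain _ ν), Finsupp.sum_fintype _ _ (by simp)]
      at h2
    rw [h2]
    congr 2
    funext x
    exact (hψx x).symm
  rw [h1, tvUnif]
  refine (norm_sum_le _ _).trans ?_
  simp only [norm_smul, hn, mul_one, Real.norm_eq_abs]
  linarith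

theorem slow (a : ℤ) (ha : 2 ≤ a) (m r s q : ℕ) [NeZero q] (hq : q = r * s) (hr : 2 ≤ r)
    (hdvd : (r : ℤ) ∣ a ^ m - 1) (hle : a ^ m ≤ 3 * r) (C : ℕ) :
    Real.exp (-(3 * π * C)) ≤ 2 * tvUnif (law mu0 a (C * m)) q := by
  refine le_trans ?_ (tv_lower _ q r s hq hr)
  refine le_trans ?_ (F_lower a (C * m) (1 / r))
  have := sum_defect a ha m r (by omega) hdvd hle C
  exact Real.exp_le_exp.2 (by linarith)

end Pool.Agent.H559Z.Mix
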